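import Pool.Agent.H330.PU

/-!
# Bounded dimension of source algebras: primitive permutation groups with three normal subgroups
suffice

Let `p` be a prime, and let `q > 7` be a prime with `p ∣ q + 1` (and `4 ∣ q + 1` if `p = 2`); there
are infinitely many such `q`. Let `X_n` be the permutational wreath product of `PSL(2, q)` and the
alternating group `A_n` in its action on the `n (n - 1)` ordered pairs of distinct points. Let `k` be
an algebraically closed field of characteristic `p`.

(1) For `n ≥ 5` the group `X_n` has exactly three normal subgroups `1 < M < X_n`, where
`M = PSL(2, q) ^ (n (n - 1))` and `X_n / M = A_n`, and `X_n` is isomorphic to a primitive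
permutation group.

(2) For every block of a finite group `G` with defect group `D` and source algebra `i kG i`, and for
all `n ≥ |G| ^ 2 + 3 |G|`, there is a block of `X_n` with defect group isomorphic to `D` and a source
algebra of the same dimension.

(3) So for every `p`-group `P` the following are equivalent: the dimensions of the source algebras of
the blocks of all finite groups with defect groups isomorphic to `P` are bounded; this is true for the
blocks of the groups `X_n`, `n` in an infinite set; this is true for the blocks of the finite
primitive permutation groups which have exactly three normal subgroups.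

The proof is the one described in `Pool/Agent/Results/MP_cea1f0_al/ThreeNormalSubgroups.lean`.
-/

set_option autoImplicit false

open Pool.Agent.H373.MN Pool.Agent.H330.PU

theorem Pool.Agent.Results.MP_325f62_al.ThreeNormalSubgroups.result (p : ℕ) [Fact p.Prime] :
    (∀ N : ℕ, ∃ q, N < q ∧ Good p q) ∧
    ∀ q, Good p q →
      (∀ n, 5 ≤ n → ThreeNormal p q n (XP n q) ∧ IsPrimitiveGroup (XP n q)) ∧
      ∀ (k : Type) [Field k] [IsAlgClosed k] [CharP k p],
        (∀ (s : Src p k) (n : ℕ), Nat.card s.G ^ 2 + 3 * Nat.card s.G ≤ n →
          ∃ t : Src p k, Nonempty (t.G ≃* XP n q) ∧ Nonempty (s.D ≃* t.D) ∧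
            Module.finrank k s.alg = Module.finrank k t.alg) ∧
        ∀ (P : Type) [Group P],
          (∀ S : Set ℕ, S.Infinite → (Bounded p k P All ↔ Bounded p k P (InXP q S))) ∧
          (Bounded p k P All ↔ Bounded p k P PrimitiveThree) :=
  main_bounded p
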